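import Pool.Agent.N658.TP.Stm

/-! # PEPS of small energy (StmLow), by helper674 -/

set_option autoImplicit false

open scoped BigOperators Matrix InnerProductSpace
open Finset Pool.Agent.TH235.PP Pool.Agent.TH235.PQ

namespace Pool.Agent.N674.TP

open Pool.Agent.N658.TP

section spec

variable {n : Type*} [Fintype n] [DecidableEq n]

lemma eig_vec (A : Matrix n n ℂ) (hA : A.IsHermitian) (j : n) :
    A *ᵥ (hA.eigenvectorBasis j).ofLp =
      (hA.eigenvalues j : ℂ) • (hA.eigenvectorBasis j).ofLp := by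
  rw [hA.mulVec_eigenvectorBasis j]
  rfl

open scoped Matrix.Norms.L2Operator in
lemma eig_abs (A : Matrix n n ℂ) (hA : A.IsHermitian) (j : n) : |hA.eigenvalues j| ≤ ‖A‖ := by
  have hnb : nr (hA.eigenvectorBasis j).ofLp = 1 := hA.eigenvectorBasis.norm_eq_one j
  have h1 := nr_mulVec A (hA.eigenvectorBasis j).ofLp
  rw [eig_vec A hA j, nr_smul, hnb, mul_one, mul_one, Complex.norm_real, Real.norm_eq_abs] at h1
  exact h1

/-- the least eigenvalue is a lower bound of the energy -/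
lemma ener_ge (A : Matrix n n ℂ) (hA : A.IsHermitian) (E : ℝ)
    (hE : ∀ j, E ≤ hA.eigenvalues j) (x : n → ℂ) (hx : normSq x = 1) :
    E ≤ (ip x (A *ᵥ x)).re := by
  set b := hA.eigenvectorBasis with hb
  set lam := hA.eigenvalues with hlam
  have hAb : ∀ j, A *ᵥ (b j).ofLp = (lam j : ℂ) • (b j).ofLp := fun j => eig_vec A hA j
  set T := Matrix.toEuclideanLin A with hT
  set X : EuclideanSpace ℂ n := WithLp.toLp 2 x with hX
  have hTb : ∀ j, T (b j) = (lam j : ℂ) • b j := by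
    intro j
    have : T (b j) = WithLp.toLp 2 (A *ᵥ (b j).ofLp) := rfl
    rw [this, hAb j, WithLp.toLp_smul]
  have hsum : T X = ∑ j, (⟪b j, X⟫_ℂ * (lam j : ℂ)) • b j := by
    conv_lhs => rw [← b.sum_repr' X]
    rw [map_sum]
    refine Finset.sum_congr rfl fun j _ => ?_
    rw [map_smul, hTb, smul_smul]
  have hin : ∀ i, ⟪b i, T X⟫_ℂ = ⟪b i, X⟫_ℂ * (lam i : ℂ) := by
    intro i
    rw [hsum]
    exact b.orthonormal.inner_right_fintype _ i
  have hen : (ip x (A *ᵥ x)).re = ∑ i, lam i * ‖⟪b i, X⟫_ℂ‖ ^ 2 := by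
    have h1 : ip x (A *ᵥ x) = ⟪X, T X⟫_ℂ := by
      rw [ip_eq]; rfl
    rw [h1, ← b.sum_inner_mul_inner X (T X), Complex.re_sum]
    refine Finset.sum_congr rfl fun i _ => ?_
    rw [hin, ← mul_assoc, ← inner_conj_symm X (b i), ← Complex.normSq_eq_conj_mul_self,
      ← Complex.ofReal_mul, Complex.ofReal_re, Complex.normSq_eq_norm_sq, mul_comm]
  have hnx : normSq x = ∑ i, ‖⟪b i, X⟫_ℂ‖ ^ 2 := by
    rw [← nr_sq]
    exact (b.sum_sq_norm_inner_right X).symm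
  rw [hen]
  calc E = E * ∑ i, ‖⟪b i, X⟫_ℂ‖ ^ 2 := by rw [← hnx, hx, mul_one]
    _ = ∑ i, E * ‖⟪b i, X⟫_ℂ‖ ^ 2 := Finset.mul_sum _ _ _
    _ ≤ ∑ i, lam i * ‖⟪b i, X⟫_ℂ‖ ^ 2 :=
        Finset.sum_le_sum fun i _ => mul_le_mul_of_nonneg_right (hE i) (sq_nonneg _)

end spec

/-- the entropy bound for the weights `(1 - κ lam) ^ (2 M)` -/
lemma ent_pow (h2 : StmEnt) {ι : Type} [Fintype ι] [Nonempty ι] (lam : ι → ℝ) (E κ β : ℝ) (M : ℕ)
    (j0 : ι) (hj0 : lam j0 = E) (hβ : 0 < β)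
    (hκM : κ * M = β) (hl : ∀ j, 1 / 2 ≤ 1 - κ * lam j) (hg : 1 - κ * E ≤ 2) :
    ∑ j, (1 - κ * lam j) ^ (2 * M) * (lam j - E) ≤
      (Real.log (Fintype.card ι) / β) * ∑ j, (1 - κ * lam j) ^ (2 * M) := by
  obtain ⟨g, hgd⟩ : ∃ g : ℝ, g = 1 - κ * E := ⟨_, rfl⟩
  have hg0 : 0 < g := by
    rw [hgd, ← hj0]
    linarith [hl j0]
  have hg2 : g ≤ 2 := by rw [hgd]; exact hg
  obtain ⟨w, hw⟩ : ∃ w : ι → ℝ, w = fun j => ((1 - κ * lam j) / g) ^ (2 * M) := ⟨_, rfl⟩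
  have hlw : ∀ j, (1 - κ * lam j) ^ (2 * M) = g ^ (2 * M) * w j := by
    intro j
    rw [hw]
    simp only []
    rw [← mul_pow, mul_div_cancel₀ _ hg0.ne']
  have hwpos : ∀ j, 0 < w j := by
    intro j
    rw [hw]
    have := hl j
    have : 0 < (1 - κ * lam j) / g := div_pos (by linarith) hg0
    exact pow_pos this _
  have ht : 0 < 2 * β / g := by positivity
  have hwle : ∀ j, w j ≤ Real.exp (-(2 * β / g * (lam j - E))) := by
    intro j
    rw [hw]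
    simp only []
    have e1 : (1 - κ * lam j) / g = 1 - κ * (lam j - E) / g := by
      rw [eq_sub_iff_add_eq, ← add_div, div_eq_one_iff_eq hg0.ne', hgd]
      ring
    have e2 : (1 - κ * lam j) / g ≤ Real.exp (-(κ * (lam j - E) / g)) := by
      rw [e1]
      have := Real.add_one_le_exp (-(κ * (lam j - E) / g))
      linarith
    have e3 : 0 ≤ (1 - κ * lam j) / g := div_nonneg (by linarith [hl j]) hg0.le
    refine (pow_le_pow_left₀ e3 e2 _).trans (le_of_eq ?_)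
    rw [← Real.exp_nat_mul]
    congr 1
    push_cast
    rw [← hκM]
    ring
  have hcard : 0 < (Fintype.card ι : ℝ) := by exact_mod_cast Fintype.card_pos
  have hcard1 : 1 ≤ (Fintype.card ι : ℝ) := by exact_mod_cast Fintype.card_pos (α := ι)
  have key := h2 ι (fun _ => 1) (fun j => lam j - E) w (2 * β / g) ht (fun _ => zero_le_one)
    hwpos hwle (by simpa using hcard)
  simp only [one_mul] at key
  have hsum1 : ∑ _j : ι, (1 : ℝ) = Fintype.card ι := by simp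
  rw [hsum1] at key
  have hS1 : 1 ≤ ∑ j, w j := by
    have h5 := Finset.single_le_sum (f := w) (fun j _ => (hwpos j).le) (mem_univ j0)
    have h6 : w j0 = 1 := by
      rw [hw]
      simp only []
      rw [hj0, ← hgd, div_self hg0.ne', one_pow]
    rwa [h6] at h5
  have hlogS : 0 ≤ Real.log (∑ j, w j) := Real.log_nonneg hS1
  have hlogc : 0 ≤ Real.log (Fintype.card ι) := Real.log_nonneg hcard1
  have key2 : ∑ j, w j * (lam j - E) ≤ (Real.log (Fintype.card ι) / β) * ∑ j, w j := by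
    refine key.trans ?_
    rw [mul_comm]
    refine mul_le_mul_of_nonneg_right ?_ (by linarith)
    rw [div_le_div_iff₀ ht hβ]
    have h7 : (Real.log (Fintype.card ι) - Real.log (∑ j, w j)) * β ≤
        Real.log (Fintype.card ι) * β := by
      refine mul_le_mul_of_nonneg_right (by linarith) hβ.le
    have h8 : Real.log (Fintype.card ι) * β ≤ Real.log (Fintype.card ι) * (2 * β / g) := by
      refine mul_le_mul_of_nonneg_left ?_ hlogc
      rw [le_div_iff₀ hg0]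
      nlinarith
    exact h7.trans h8
  have e3 : ∑ j, (1 - κ * lam j) ^ (2 * M) * (lam j - E) =
      g ^ (2 * M) * ∑ j, w j * (lam j - E) := by
    rw [Finset.mul_sum]
    exact Finset.sum_congr rfl fun j _ => by rw [hlw]; ring
  have e4 : ∑ j, (1 - κ * lam j) ^ (2 * M) = g ^ (2 * M) * ∑ j, w j := by
    rw [Finset.mul_sum]
    exact Finset.sum_congr rfl fun j _ => hlw j
  rw [e3, e4]
  calc g ^ (2 * M) * ∑ j, w j * (lam j - E)
      ≤ g ^ (2 * M) * ((Real.log (Fintype.card ι) / β) * ∑ j, w j) :=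
        mul_le_mul_of_nonneg_left key2 (by positivity)
    _ = _ := by ring

/-- linear bound for the exponent of the bond dimension -/
lemma num_bd (β lam T v J' c1 c2 P Q C1 r ld : ℝ) (hβ : 1 ≤ β) (hlam0 : 0 ≤ lam) (hT0 : 0 ≤ T)
    (hv0 : 0 ≤ v) (hJ1 : 1 ≤ J') (hc10 : 0 ≤ c1) (hc20 : 0 < c2) (hP0 : 0 ≤ P) (hQ0 : 0 ≤ Q)
    (hld : 0 ≤ ld) (hr2 : r ≤ c2 * (c1 * (1 + β * J') + (2 * lam + (v + T) + 4)) + 1)
    (hC1 : C1 = 2 * (c2 * (c1 * (1 + J') + (7 + v)) + 1) + 2) :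
    4 * (P + 1) * (2 * r + 2) * Q ≤ (4 * (P + 1) * C1 * Q + 4 * ld) * (β + lam + T) := by
  obtain ⟨s, hs⟩ : ∃ s, s = β + lam + T := ⟨_, rfl⟩
  rw [← hs]
  have hs1 : 1 ≤ s := by rw [hs]; linarith
  have hβs : β ≤ s := by rw [hs]; linarith
  have k1 : 1 + β * J' ≤ (1 + J') * s := by
    have : β * J' ≤ s * J' := mul_le_mul_of_nonneg_right hβs (by linarith)
    linarith
  have k2 : c1 * (1 + β * J') ≤ c1 * ((1 + J') * s) := mul_le_mul_of_nonneg_left k1 hc10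
  have k3 : 2 * lam + (v + T) + 4 ≤ (7 + v) * s := by
    have h5 : v ≤ v * s := le_mul_of_one_le_right hv0 hs1
    have h6 : lam ≤ s := by rw [hs]; linarith
    have h7 : lam + T ≤ s := by rw [hs]; linarith
    linarith
  have k4 : c2 * (c1 * (1 + β * J') + (2 * lam + (v + T) + 4)) ≤
      c2 * (c1 * ((1 + J') * s) + (7 + v) * s) :=
    mul_le_mul_of_nonneg_left (by linarith) hc20.le
  have k5 : 2 * r + 2 ≤ C1 * s := by
    rw [hC1]
    have : c2 * (c1 * ((1 + J') * s) + (7 + v) * s) = c2 * (c1 * (1 + J') + (7 + v)) * s := by ring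
    linarith
  have k6 := mul_le_mul_of_nonneg_left k5 (by positivity : (0 : ℝ) ≤ 4 * (P + 1))
  have k7 := mul_le_mul_of_nonneg_right k6 hQ0
  have k8 : 0 ≤ 4 * ld * s := by positivity
  calc 4 * (P + 1) * (2 * r + 2) * Q ≤ 4 * (P + 1) * (C1 * s) * Q := k7
    _ ≤ (4 * (P + 1) * C1 * Q + 4 * ld) * s := by linarith

open scoped Matrix.Norms.L2Operator in
/-- T4. PEPS of small energy. -/
theorem low (h1 : StmFrob) (h2 : StmEnt) (h3 : StmCol) : StmLow := by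
  intro d R' J hd
  obtain ⟨J', hJ'⟩ : ∃ J' : ℝ, J' = max J 1 := ⟨_, rfl⟩
  have hJ1 : 1 ≤ J' := by rw [hJ']; exact le_max_right _ _
  have hJJ : J ≤ J' := by rw [hJ']; exact le_max_left _ _
  obtain ⟨K, hK⟩ : ∃ K : ℕ, K = (R' + 1) ^ 4 := ⟨_, rfl⟩
  have hK1 : 1 ≤ K := by rw [hK]; exact Nat.one_le_pow _ _ (Nat.succ_pos _)
  have hK1' : (1 : ℝ) ≤ K := by exact_mod_cast hK1
  obtain ⟨c1, hc1⟩ : ∃ c1 : ℝ, c1 = 100 * ((K : ℝ) + 1) ^ 2 := ⟨_, rfl⟩
  obtain ⟨c2, hc2⟩ : ∃ c2 : ℝ, c2 = 10 * (K : ℝ) * ((K : ℝ) + 1) ^ 2 := ⟨_, rfl⟩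
  have hc10 : 0 ≤ c1 := by rw [hc1]; positivity
  have hc20 : 0 < c2 := by rw [hc2]; positivity
  obtain ⟨P, hP⟩ : ∃ P : ℝ, P = ((Fintype.card (Lm d (R' + 1)) : ℕ) : ℝ) := ⟨_, rfl⟩
  have hP0 : 0 ≤ P := by rw [hP]; exact Nat.cast_nonneg _
  obtain ⟨Q, hQ⟩ : ∃ Q : ℝ, Q = ((2 * R' + 1 : ℕ) : ℝ) ^ 2 := ⟨_, rfl⟩
  have hQ0 : 0 ≤ Q := by rw [hQ]; positivity
  obtain ⟨v, hv⟩ : ∃ v : ℝ, v = Real.log (48 * J') := ⟨_, rfl⟩
  have hv0 : 0 ≤ v := by rw [hv]; exact Real.log_nonneg (by linarith)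
  obtain ⟨C1, hC1⟩ : ∃ C1 : ℝ, C1 = 2 * (c2 * (c1 * (1 + J') + (7 + v)) + 1) + 2 := ⟨_, rfl⟩
  have hC10 : 0 ≤ C1 := by rw [hC1]; positivity
  have hlogd : 0 < Real.log d := Real.log_pos (by exact_mod_cast hd)
  refine ⟨4 * (P + 1) * C1 * Q + 4 * Real.log d, by positivity, ?_⟩
  intro L _ hL hRL β δ hβ hδ hδ1 h hh hnJ
  have hβ0 : 0 < β := by linarith
  have hL2 : (2 : ℝ) ≤ L := by exact_mod_cast hL
  obtain ⟨lam, hlam⟩ : ∃ lam, lam = Real.log L := ⟨_, rfl⟩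
  have hlam0 : 0 ≤ lam := by rw [hlam]; exact Real.log_nonneg (by linarith)
  obtain ⟨T, hT⟩ : ∃ T, T = Real.log (1 / δ) := ⟨_, rfl⟩
  have hT0 : 0 ≤ T := by
    rw [hT]
    exact Real.log_nonneg (by rw [le_div_iff₀ hδ]; linarith)
  obtain ⟨δ', hδ'⟩ : ∃ δ' : ℝ, δ' = δ / (48 * J') := ⟨_, rfl⟩
  have hδ'0 : 0 < δ' := by rw [hδ']; positivity
  have hδ'2 : δ' ≤ 1 / 2 := by
    rw [hδ', div_le_iff₀ (by positivity)]
    linarith
  have hlogδ : Real.exp (-(v + T)) = δ' := by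
    rw [hv, hT, ← Real.log_mul (by positivity) (by positivity), Real.exp_neg,
      Real.exp_log (by positivity), hδ']
    field_simp
  have hNexp : ((L ^ 2 : ℕ) : ℝ) = Real.exp (2 * lam) := by
    rw [hlam, two_mul, Real.exp_add, Real.exp_log (by linarith)]; push_cast; ring
  obtain ⟨N, hN⟩ : ∃ N : ℝ, N = ((L ^ 2 : ℕ) : ℝ) := ⟨_, rfl⟩
  have hNL : N = (L : ℝ) ^ 2 := by rw [hN]; push_cast; ring
  have hN1 : (1 : ℝ) ≤ N := by
    rw [hN, hNexp]; exact Real.one_le_exp (by linarith)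
  have hB0 : 0 ≤ β * J' := by positivity
  obtain ⟨q, hM1, hM2, hM3⟩ := par_q (β * J') N (v + T) hB0 hN1
  rw [hlogδ] at hM3
  have hM0 : (0 : ℝ) < tm q := by linarith
  obtain ⟨r, hr1, hr2⟩ := par_r c1 c2 (1 + β * J') (2 * lam + (v + T) + 4) hc20 (by positivity)
  obtain ⟨κ, hκ⟩ : ∃ κ : ℝ, κ = β / tm q := ⟨_, rfl⟩
  have hκ0 : 0 < κ := by rw [hκ]; positivity
  have hκM : κ * tm q = β := by rw [hκ]; field_simp
  obtain ⟨y0, hy0⟩ : ∃ y0 : ℝ, y0 = κ * J' := ⟨_, rfl⟩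
  have hy00 : 0 ≤ y0 := by rw [hy0]; positivity
  have hNy : N * y0 ≤ 1 / 80 := by
    have : N * y0 = N * (β * J') / tm q := by rw [hy0, hκ]; ring
    rw [this]; exact hM2
  have hMN : (tm q : ℝ) * (N * y0) ^ 2 ≤ δ' / 16 := by
    have : (tm q : ℝ) * (N * y0) ^ 2 = (N * (β * J')) ^ 2 / tm q := by
      rw [hy0, hκ]; field_simp
    rw [this]; exact hM3
  have hMy : (tm q : ℝ) * y0 = β * J' := by rw [hy0, ← hκM]; ring
  have hrr : N * Real.exp (100 * (K + 1) ^ 2 * (1 + tm q * y0) -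
      r / (10 * K * (K + 1) ^ 2)) ≤ δ' / 24 := by
    rw [hMy, hN, hNexp, ← Real.exp_add]
    have e1 : Real.exp (2 * lam + (100 * (K + 1) ^ 2 * (1 + β * J') -
        r / (10 * K * (K + 1) ^ 2))) ≤ Real.exp (-(v + T) + -4) := by
      apply Real.exp_le_exp.2
      rw [hc1, hc2] at hr1
      linarith
    refine e1.trans ?_
    rw [Real.exp_add, hlogδ, div_eq_mul_one_div]
    exact mul_le_mul_of_nonneg_left exp_four hδ'0.le
  have hy80 : y0 ≤ 1 / 80 := (le_mul_of_one_le_left hy00 hN1).trans hNy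
  -- the matrix
  have : Nonempty (Site L → Fin d) := ⟨fun _ => ⟨0, by omega⟩⟩
  have hH : (ham h L).IsHermitian := ham_herm h hh
  have hHn : ‖ham h L‖ ≤ (L : ℝ) ^ 2 * J' :=
    (norm_ham h).trans (mul_le_mul_of_nonneg_left (hnJ.trans hJJ) (by positivity))
  obtain ⟨j0, -, hj0⟩ := Finset.exists_min_image univ hH.eigenvalues univ_nonempty
  obtain ⟨E, hE⟩ : ∃ E, E = hH.eigenvalues j0 := ⟨_, rfl⟩
  have hEle : ∀ j, E ≤ hH.eigenvalues j := fun j => by rw [hE]; exact hj0 j (mem_univ j)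
  have heig : ∀ j, |hH.eigenvalues j| ≤ (L : ℝ) ^ 2 * J' := fun j => (eig_abs _ hH j).trans hHn
  have hk1 : ∀ x : ℝ, |x| ≤ (L : ℝ) ^ 2 * J' → κ * x ≤ 1 / 80 ∧ -(1 / 80) ≤ κ * x := by
    intro x hx
    have h5 : |κ * x| ≤ 1 / 80 := by
      rw [abs_mul, abs_of_pos hκ0]
      refine (mul_le_mul_of_nonneg_left hx hκ0.le).trans ?_
      have : κ * ((L : ℝ) ^ 2 * J') = N * y0 := by rw [hNL, hy0]; ring
      rw [this]
      exact hNy
    rw [abs_le] at h5
    exact ⟨h5.2, h5.1⟩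
  have hl : ∀ j, 3 / 4 ≤ 1 - κ * hH.eigenvalues j := fun j => by linarith [(hk1 _ (heig j)).1]
  have hEabs : |E| ≤ (L : ℝ) ^ 2 * J' := by rw [hE]; exact heig j0
  have hg2 : 1 - κ * E ≤ 2 := by linarith [(hk1 E hEabs).2]
  obtain ⟨e⟩ : Nonempty (Fin (L ^ 2) ≃ Site L) := by
    rw [← Fintype.card_eq, Fintype.card_fin, card_site]
  obtain ⟨y, hy⟩ : ∃ y : Fin (L ^ 2) → TorOp d L,
    y = fun b => ((-κ : ℝ) : ℂ) • term h (e b) := ⟨_, rfl⟩
  have hyn : ∀ b, ‖y b‖ ≤ y0 := by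
    intro b
    rw [hy]
    simp only []
    rw [norm_smul, Complex.norm_real, Real.norm_eq_abs, abs_neg, abs_of_pos hκ0, hy0]
    exact mul_le_mul_of_nonneg_left ((norm_term h (e b)).trans (hnJ.trans hJJ)) hκ0.le
  have hG : 1 + ∑ b, y b = 1 - (κ : ℂ) • ham h L := by
    rw [hy]
    simp only []
    rw [← Finset.smul_sum]
    have : ∑ b, term h (e b) = ham h L := by
      unfold ham
      exact e.sum_comp (fun u => term h u)
    rw [this]
    push_cast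
    rw [neg_smul, sub_eq_add_neg]
  have hKc : ∀ b, open Classical in (univ.filter fun b' => adjR R' e b b').card ≤ K := by
    intro b
    rw [hK]
    exact adjR_card e b
  have hfr := h1 (Site L → Fin d) (ham h L) hH κ hl (L ^ 2) (adjR R' e) K (adjR_symm e)
    (adjR_irr e) hK1 hKc q r y hG y0 hy00 hy80 hyn (by rw [← hN]; linarith)
    (by
      rw [← hN]
      have : 2 * (tm q : ℝ) * (N * y0) ^ 2 = 2 * (tm q * (N * y0) ^ 2) := by ring
      rw [this]; linarith)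
    (by rw [← hN]; linarith)
  rw [← hN] at hfr
  obtain ⟨A1, hA1⟩ : ∃ A1 : TorOp d L, A1 = KA (adjR R' e) q y r := ⟨_, rfl⟩
  rw [← hA1] at hfr
  have hl0 : ∀ j, 0 < 1 - κ * hH.eigenvalues j := fun j => by linarith [hl j]
  have hS0 : 0 ≤ ∑ j, (1 - κ * hH.eigenvalues j) ^ (2 * tm q) :=
    Finset.sum_nonneg fun j _ => (pow_pos (hl0 j) _).le
  have hfr2 : fr2 (A1 - (1 - (κ : ℂ) • ham h L) ^ tm q) ≤
      δ' ^ 2 * ∑ j, (1 - κ * hH.eigenvalues j) ^ (2 * tm q) := by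
    refine hfr.trans (mul_le_mul_of_nonneg_right ?_ hS0)
    have hn1 : 0 ≤ N * Real.exp (100 * (K + 1) ^ 2 * (1 + tm q * y0) -
      r / (10 * K * (K + 1) ^ 2)) := by positivity
    have hn2 : 0 ≤ (tm q : ℝ) * (N * y0) ^ 2 := by positivity
    refine pow_le_pow_left₀ (by linarith) (by linarith) 2
  have hent := ent_pow h2 hH.eigenvalues E κ β (tm q) j0 hE.symm hβ0 hκM
    (fun j => by linarith [hl j]) hg2
  have hcard : Real.log (Fintype.card (Site L → Fin d)) = N * Real.log d := by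
    rw [Fintype.card_fun, Fintype.card_fin, card_site, Nat.cast_pow, Real.log_pow, ← hN]
  rw [hcard] at hent
  obtain ⟨t, ht0, ht⟩ := h3 (Site L → Fin d) (ham h L) hH κ E (N * Real.log d / β)
    ((L : ℝ) ^ 2 * J') δ' (tm q) A1 hEle hl0 hHn hEabs (by positivity) hδ'0.le hδ'2 hent hfr2
  obtain ⟨A, hA⟩ := peps_KA reg hRL (K := Fin 1)
    (fun x i _ _ _ _ => if i = t x then (1 : ℂ) else 0) ((-κ : ℝ) : ℂ) h e q r
  rw [basis_contract] at hA
  have hcol : A1 *ᵥ Pi.single t 1 = fun s => A1 s t := by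
    funext s
    rw [Matrix.mulVec_single_one]
    rfl
  have hx : (fun s => A1 s t) = contract A := by
    rw [← hcol, hA1, hy]
    exact hA
  rw [hx] at ht0 ht
  have hpeps : IsPEPS (Fintype.card (Fin 1 × (Fin (2 * R' + 1) × Fin (2 * R' + 1) →
      LabT d (R' + 1) q r))) (contract A) := isPEPS_contract A
  have hnr : 0 < nr (contract A) := by
    rcases (nr_nonneg (contract A)).lt_or_eq with h5 | h5
    · exact h5
    · exfalso
      have := nr_sq (contract A)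
      rw [← h5] at this
      rw [← this] at ht0
      simp at ht0
  have hnn : ‖((nr (contract A))⁻¹ : ℂ)‖ = (nr (contract A))⁻¹ := by
    rw [norm_inv, Complex.norm_real, Real.norm_eq_abs, abs_of_pos hnr]
  refine ⟨_, ((nr (contract A))⁻¹ : ℂ) • contract A, ?_, hpeps.smul _, ?_, ?_⟩
  · -- the bond dimension
    have hcardb := card_bdK count (d := d) (R' := R') 1 q r
    rw [Nat.cast_one, one_mul, ← hP, ← hQ] at hcardb
    refine hcardb.trans (Real.exp_le_exp.2 ?_)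
    rw [← hlam, ← hT]
    exact num_bd β lam T v J' c1 c2 P Q C1 r (Real.log d) hβ hlam0 hT0 hv0 hJ1 hc10 hc20 hP0 hQ0
      hlogd.le hr2 hC1
  · rw [← nr_sq, nr_smul, hnn, inv_mul_cancel₀ hnr.ne', one_pow]
  · intro Ψ hΨ
    have hEΨ := ener_ge (ham h L) hH E hEle Ψ hΨ
    rw [Matrix.mulVec_smul, ip_smul_right, ip_smul_left]
    have e5 : ((nr (contract A))⁻¹ : ℂ) * ((starRingEnd ℂ) ((nr (contract A))⁻¹ : ℂ) *
        ip (contract A) (ham h L *ᵥ contract A)) =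
        ((((nr (contract A)) ^ 2)⁻¹ : ℝ) : ℂ) * ip (contract A) (ham h L *ᵥ contract A) := by
      rw [map_inv₀, Complex.conj_ofReal]
      push_cast
      ring
    rw [e5, Complex.re_ofReal_mul]
    rw [← nr_sq] at ht
    have e6 : ((nr (contract A)) ^ 2)⁻¹ * (ip (contract A) (ham h L *ᵥ contract A)).re ≤
        E + 4 * (N * Real.log d / β) + 24 * ((L : ℝ) ^ 2 * J') * δ' := by
      rw [inv_mul_le_iff₀ (by positivity)]
      exact ht.trans (le_of_eq (mul_comm _ _))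
    refine e6.trans ?_
    have e7 : 24 * ((L : ℝ) ^ 2 * J') * δ' = (L : ℝ) ^ 2 * δ / 2 := by
      rw [hδ']
      field_simp
      ring
    have e8 : 0 ≤ (L : ℝ) ^ 2 * δ := by positivity
    have e9 : 4 * (N * Real.log d / β) ≤
        (L : ℝ) ^ 2 * ((4 * (P + 1) * C1 * Q + 4 * Real.log d) / β) := by
      rw [hNL]
      have : 4 * ((L : ℝ) ^ 2 * Real.log d / β) = (L : ℝ) ^ 2 * (4 * Real.log d / β) := by ring
      rw [this]
      refine mul_le_mul_of_nonneg_left ?_ (by positivity)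
      refine div_le_div_of_nonneg_right ?_ hβ0.le
      have : 0 ≤ 4 * (P + 1) * C1 * Q := by positivity
      linarith
    rw [e7, mul_add]
    linarith

end Pool.Agent.N674.TP
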